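import Pool.Agent.H316Z.Tree.Upper

set_option autoImplicit false

namespace Pool.Agent.Results.MP_ae7dce_co.ACounter

open H316Z.Tree

/-- `s_{7,4} < c_{7,4}`: two phylogenetic trees of size 7 can share fewer partitions into 4 classes
than any two caterpillars of size 7. -/
theorem result : sMin 7 4 < cMin 7 4 := sMin_lt_cMin

end Pool.Agent.Results.MP_ae7dce_co.ACounter
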